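import Mathlib

/-!
# MP_74a3a5_co : representation number of toroidal grid graphs

`TGr_{3,5} = C_3 □ C_5` is 3-word-representable, so the conjectured bound
`R(TGr_{m,n}) ≥ 4` for all `m + n ≥ 8` is false.
-/

namespace Pool.Agent.Results.MP_74a3a5_co.TorusThreeFive

/-- The toroidal grid graph `TGr_{m,n}`: vertices `(i, j)` with `i ∈ Fin m`, `j ∈ Fin n`;
`(i, j)` and `(i', j')` are adjacent iff (`j = j'` and `i' - i ≡ ±1 mod m`) or
(`i = i'` and `j' - j ≡ ±1 mod n`). -/
def TGr (m n : ℕ) : SimpleGraph (Fin m × Fin n) where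
  Adj p q := p ≠ q ∧
    ((p.2 = q.2 ∧ ((p.1.val + 1) % m = q.1.val ∨ (q.1.val + 1) % m = p.1.val)) ∨
     (p.1 = q.1 ∧ ((p.2.val + 1) % n = q.2.val ∨ (q.2.val + 1) % n = p.2.val)))
  symm := ⟨by
    rintro p q ⟨hne, h⟩
    refine ⟨hne.symm, ?_⟩
    rcases h with ⟨h1, h2⟩ | ⟨h1, h2⟩
    · exact Or.inl ⟨h1.symm, h2.symm⟩
    · exact Or.inr ⟨h1.symm, h2.symm⟩⟩
  loopless := ⟨fun p h => h.1 rfl⟩

/-- The letters `x` and `y` alternate in the word `w`: after deleting all other letters no two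
consecutive letters are equal. -/
def Alternate {V : Type*} [DecidableEq V] (w : List V) (x y : V) : Prop :=
  (w.filter (fun c => c = x ∨ c = y)).IsChain (· ≠ ·)

/-- The word `w` over the alphabet `V` is a `k`-representation of `G`. -/
def Represents {V : Type*} [DecidableEq V] (G : SimpleGraph V) (k : ℕ) (w : List V) : Prop :=
  (∀ x : V, w.count x = k) ∧ ∀ x y : V, x ≠ y → (Alternate w x y ↔ G.Adj x y)

/-- `G` is `k`-word-representable. -/
def WordRepresentable {V : Type*} [DecidableEq V] (G : SimpleGraph V) (k : ℕ) : Prop :=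
  ∃ w : List V, Represents G k w

/-- The representation number of `G`: the least `k ≥ 1` such that `G` is
`k`-word-representable (with the junk value `0` if there is none). -/
noncomputable def repNumber {V : Type*} [DecidableEq V] (G : SimpleGraph V) : ℕ :=
  sInf {k : ℕ | 1 ≤ k ∧ WordRepresentable G k}

/-- Vertex number `t` stands for `(t mod 3, t div 3)`. -/
def vtx (t : ℕ) : Fin 3 × Fin 5 := (Fin.ofNat 3 t, Fin.ofNat 5 (t / 3))

/-- A 3-representation of `TGr_{3,5}`. -/
def word : List (Fin 3 × Fin 5) :=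
  [0, 6, 4, 1, 5, 2, 3, 7, 4, 8, 5, 9, 6, 10, 7, 12, 11, 9, 13, 10, 8, 14, 11, 0, 12, 3, 6, 1, 4,
    2, 0, 9, 7, 5, 3, 13, 1, 14, 12, 10, 13, 8, 11, 2, 14].map vtx

instance (m n : ℕ) : DecidableRel (TGr m n).Adj := fun p q => by
  unfold TGr; infer_instance

instance {V : Type*} [DecidableEq V] (w : List V) (x y : V) : Decidable (Alternate w x y) := by
  unfold Alternate; infer_instance

theorem word_represents : Represents (TGr 3 5) 3 word := by
  constructor
  · decide +kernel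
  · decide +kernel

/-- `TGr_{3,5}` is 3-word-representable; in particular the representation number of `TGr_{m,n}`
is not at least `4` for all `m, n ≥ 3` with `m + n ≥ 8`. -/
theorem result :
    WordRepresentable (TGr 3 5) 3 ∧
    (∃ m n : ℕ, 3 ≤ m ∧ 3 ≤ n ∧ 8 ≤ m + n ∧ ∃ k : ℕ, 1 ≤ k ∧ k ≤ 3 ∧
      WordRepresentable (TGr m n) k) ∧
    ¬ (∀ m n : ℕ, 3 ≤ m → 3 ≤ n → 8 ≤ m + n → 4 ≤ repNumber (TGr m n)) := by
  have h : WordRepresentable (TGr 3 5) 3 := ⟨word, word_represents⟩
  refine ⟨h, ⟨3, 5, by norm_num, by norm_num, by norm_num, 3, by norm_num, le_rfl, h⟩, ?_⟩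
  intro hall
  have h4 := hall 3 5 (by norm_num) (by norm_num) (by norm_num)
  have h3 : repNumber (TGr 3 5) ≤ 3 := Nat.sInf_le ⟨by norm_num, h⟩
  omega

end Pool.Agent.Results.MP_74a3a5_co.TorusThreeFive
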